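import Pool.Agent.Helper19.SY.Cov

/-!
# The choice of a direction
-/

set_option autoImplicit false
namespace Pool.Agent.Helper19.SY
open MeasureTheory Metric Topology
open Pool.Agent.Helper59.Pack Pool.Agent.Helper69.MD Pool.Agent.Helper33.SY
open scoped ENNReal

theorem lint_abs {h : ℝ → ℝ≥0∞} (hm : Measurable h) : ∫⁻ t : ℝ, h |t| = 2 * ∫⁻ t in Set.Ioi (0 : ℝ), h t := by
  have h1 : ∫⁻ t : ℝ, h |t| = (∫⁻ t in Set.Ioi (0 : ℝ), h |t|) + ∫⁻ t in (Set.Ioi (0 : ℝ))ᶜ, h |t| :=
    (lintegral_add_compl _ measurableSet_Ioi).symm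
  have h2 : ∫⁻ t in Set.Ioi (0 : ℝ), h |t| = ∫⁻ t in Set.Ioi (0 : ℝ), h t :=
    setLIntegral_congr_fun measurableSet_Ioi fun t ht => by
      rw [abs_of_pos ht]
  have h3 : ∫⁻ t in (Set.Ioi (0 : ℝ))ᶜ, h |t| = ∫⁻ t in Set.Ioi (0 : ℝ), h t := by
    have e1 : (Set.Ioi (0 : ℝ))ᶜ = (fun t : ℝ => -t) ⁻¹' Set.Ici (0 : ℝ) := by
      ext t
      simp
    have e2 : ∫⁻ t in (fun t : ℝ => -t) ⁻¹' Set.Ici (0 : ℝ), h |(-t)| = ∫⁻ t in Set.Ici (0 : ℝ), h |t| :=
      (Measure.measurePreserving_neg (volume : Measure ℝ)).setLIntegral_comp_preimage measurableSet_Ici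
        (f := fun t => h |t|) (hm.comp measurable_id.abs)
    rw [e1]
    simp only [abs_neg] at e2
    rw [e2]
    rw [← setLIntegral_congr Ioi_ae_eq_Ici]
    exact h2
  rw [h1, h2, h3, two_mul]

theorem ofReal_integral_le {f : ℝ → ℝ} {s : Set ℝ} (hs : MeasurableSet s) (hf : ∀ t ∈ s, 0 ≤ f t) :
    ENNReal.ofReal (∫ t in s, f t) ≤ ∫⁻ t in s, ENNReal.ofReal (f t) := by
  by_cases h : Integrable f (volume.restrict s)
  · rw [ofReal_integral_eq_lintegral_ofReal h]
    exact (ae_restrict_iff' hs).2 (Filter.Eventually.of_forall hf)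
  · rw [integral_undef h]
    simp

variable {C : Set E3}

/-- the integral of the covariogram -/
noncomputable def gg (D : Set E3) (s : ℝ) : ℝ := ∫ y, max (len D y - s) 0

theorem gg_nonneg (D : Set E3) (s : ℝ) : 0 ≤ gg D s := integral_nonneg fun _ => le_max_right _ _

theorem gg_lint {D : Set E3} (hD : IsConvexBody D) {s : ℝ} (hs : 0 ≤ s) :
    ∫⁻ y : P2, ENNReal.ofReal (max (len D y - s) 0) = ENNReal.ofReal (gg D s) := by
  obtain ⟨B, hB⟩ := len_bounded hD
  have hB0 : 0 ≤ B := (len_nonneg D 0).trans (hB 0)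
  unfold gg
  rw [ofReal_integral_eq_lintegral_ofReal]
  · refine integrable_comp hD (ψ := fun t => max (t - s) 0) (by fun_prop) (max_eq_right (by linarith)) (C := B) ?_
    intro y
    have h1 := hB y
    rw [abs_of_nonneg (le_max_right _ _)]
    exact max_le (by linarith) hB0
  · exact Filter.Eventually.of_forall fun _ => le_max_right _ _

theorem A0_ge (hC : IsConvexBody C) (hs : ∀ x ∈ C, -x ∈ C) (c : P2) :
    ENNReal.ofReal (2 * ∫ s in (0:ℝ)..(kap C c)⁻¹, s ^ 2 * gg (sb C c) s) ≤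
      ∫⁻ t : ℝ, ENNReal.ofReal (t ^ 2) * sl (S0 C) (t • uu c) := by
  have hk := kap_pos hC hs c
  set M : ℝ := (kap C c)⁻¹ with hM
  have hM0 : 0 < M := inv_pos.2 hk
  set D := sb C c with hDdef
  have hD : IsConvexBody D := sb_body hC c
  set F : ℝ → ℝ≥0∞ := fun s => ∫⁻ y : P2, ENNReal.ofReal (max (len D y - s) 0) with hF
  have hFm : Measurable F := by
    have : Measurable fun p : ℝ × P2 => ENNReal.ofReal (max (len D p.2 - p.1) 0) := by
      have h1 : Measurable fun p : ℝ × P2 => len D p.2 := (measurable_len hD).comp measurable_snd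
      exact ((h1.sub measurable_fst).max measurable_const).ennreal_ofReal
    exact this.lintegral_prod_right'
  set h : ℝ → ℝ≥0∞ := fun t => ENNReal.ofReal (t ^ 2) * (if t ≤ M then F t else 0) with hh
  have hhm : Measurable h := by
    refine (ENNReal.measurable_ofReal.comp (measurable_id.pow_const 2)).mul ?_
    exact Measurable.ite measurableSet_Iic hFm measurable_const
  have e1 : ∫⁻ t : ℝ, ENNReal.ofReal (t ^ 2) * sl (S0 C) (t • uu c) = ∫⁻ t : ℝ, h |t| := by
    refine lintegral_congr fun t => ?_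
    rw [sl_S0 hC hs]
    simp only [hh, hF, sq_abs]
    rfl
  rw [e1, lint_abs hhm, ENNReal.ofReal_mul (by norm_num), ENNReal.ofReal_ofNat]
  refine mul_le_mul_right ?_ 2
  rw [intervalIntegral.integral_of_le hM0.le]
  have h1 := ofReal_integral_le (f := fun s => s ^ 2 * gg D s) (s := Set.Ioc 0 M) measurableSet_Ioc
    (fun t _ => mul_nonneg (sq_nonneg t) (gg_nonneg D t))
  refine h1.trans ?_
  calc ∫⁻ t in Set.Ioc 0 M, ENNReal.ofReal (t ^ 2 * gg D t) = ∫⁻ t in Set.Ioc 0 M, h t := by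
        refine setLIntegral_congr_fun measurableSet_Ioc fun t ht => ?_
        simp only [hh, hF]
        rw [if_pos ht.2, gg_lint hD ht.1.le, ENNReal.ofReal_mul (sq_nonneg t)]
    _ ≤ ∫⁻ t in Set.Ioi 0, h t := lintegral_mono_set fun t ht => ht.1

theorem A1_le (hC : IsConvexBody C) (hs : ∀ x ∈ C, -x ∈ C) (c : P2) :
    3 * ∫⁻ t : ℝ, ENNReal.ofReal (t ^ 2) * sl (S1 C) (t • uu c) =
      ENNReal.ofReal ((kap C c)⁻¹ ^ 3 * gg (sb C c) (kap C c)⁻¹) := by
  have hk := kap_pos hC hs c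
  set M : ℝ := (kap C c)⁻¹ with hM
  have hM0 : 0 < M := inv_pos.2 hk
  set D := sb C c with hDdef
  have hD : IsConvexBody D := sb_body hC c
  set h : ℝ → ℝ≥0∞ := fun t => ENNReal.ofReal (t ^ 2) * (if t ≤ M then ENNReal.ofReal ((t * kap C c) ^ 3) * ENNReal.ofReal (gg D M) else 0) with hh
  have hhm : Measurable h := by
    refine (ENNReal.measurable_ofReal.comp (measurable_id.pow_const 2)).mul ?_
    refine Measurable.ite measurableSet_Iic ?_ measurable_const
    exact (ENNReal.measurable_ofReal.comp ((measurable_id.mul_const _).pow_const 3)).mul_const _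
  have e1 : ∫⁻ t : ℝ, ENNReal.ofReal (t ^ 2) * sl (S1 C) (t • uu c) = ∫⁻ t : ℝ, h |t| := by
    refine lintegral_congr_ae ?_
    have : ∀ᵐ t : ℝ, t ≠ 0 := by
      have := (measure_singleton (μ := (volume : Measure ℝ)) 0)
      rw [ae_iff]
      simp
    filter_upwards [this] with t ht
    rw [sl_S1 hC hs c ht, gg_lint hD hM0.le]
    simp only [hh, sq_abs]
    rfl
  rw [e1, lint_abs hhm]
  have e2 : ∫⁻ t in Set.Ioi 0, h t = ∫⁻ t in Set.Ioc 0 M, ENNReal.ofReal (t ^ 5 * kap C c ^ 3) * ENNReal.ofReal (gg D M) := by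
    rw [← lintegral_indicator measurableSet_Ioi, ← lintegral_indicator measurableSet_Ioc]
    refine lintegral_congr fun t => ?_
    by_cases h1 : 0 < t
    · by_cases h2 : t ≤ M
      · rw [Set.indicator_of_mem (show t ∈ Set.Ioi 0 from h1), Set.indicator_of_mem (show t ∈ Set.Ioc 0 M from ⟨h1, h2⟩)]
        simp only [hh]
        rw [if_pos h2, ← mul_assoc, ← ENNReal.ofReal_mul (sq_nonneg t)]
        congr 2
        ring
      · rw [Set.indicator_of_mem (show t ∈ Set.Ioi 0 from h1), Set.indicator_of_notMem (show t ∉ Set.Ioc 0 M from fun h => h2 h.2)]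
        simp only [hh]
        rw [if_neg h2, mul_zero]
    · rw [Set.indicator_of_notMem (show t ∉ Set.Ioi 0 from h1), Set.indicator_of_notMem (show t ∉ Set.Ioc 0 M from fun h => h1 h.1)]
  have e3 : ∫⁻ t in Set.Ioc 0 M, ENNReal.ofReal (t ^ 5 * kap C c ^ 3) = ENNReal.ofReal (M ^ 3 / 6) := by
    rw [← ofReal_integral_eq_lintegral_ofReal]
    · congr 1
      rw [← intervalIntegral.integral_of_le hM0.le, intervalIntegral.integral_mul_const, integral_pow]
      have : kap C c = M⁻¹ := by rw [hM, inv_inv]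
      rw [this]
      field_simp
      norm_num
      ring
    · have : IntervalIntegrable (fun t : ℝ => t ^ 5 * kap C c ^ 3) volume 0 M := by
        apply Continuous.intervalIntegrable
        fun_prop
      exact (intervalIntegrable_iff_integrableOn_Ioc_of_le hM0.le).1 this
    · refine (ae_restrict_iff' measurableSet_Ioc).2 (Filter.Eventually.of_forall fun t ht => ?_)
      have h1 : 0 < t := ht.1
      change 0 ≤ t ^ 5 * kap C c ^ 3
      positivity
  rw [e2, lintegral_mul_const' _ _ ENNReal.ofReal_ne_top, e3]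
  have h6 : (3 : ℝ≥0∞) * (2 * (ENNReal.ofReal (M ^ 3 / 6) * ENNReal.ofReal (gg D M))) =
      ENNReal.ofReal 6 * ENNReal.ofReal (M ^ 3 / 6) * ENNReal.ofReal (gg D M) := by
    rw [ENNReal.ofReal_ofNat]
    ring
  rw [h6, ← ENNReal.ofReal_mul (by norm_num), ← ENNReal.ofReal_mul (by positivity)]
  congr 1
  ring

/-- **The choice of the direction**: for some direction the area of the projection plus twice the area where the chord is
longer than the half chord `M` is at most `2 vol(C) / M`. -/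
theorem exists_dir (hC : IsConvexBody C) (hs : ∀ x ∈ C, -x ∈ C) : ∃ c : P2, ∃ M : ℝ, 0 < M ∧ len (sb C c) 0 = 2 * M ∧
    (volume (proj (sb C c))).toReal + 2 * (volume {y | M < len (sb C c) y}).toReal ≤ 2 * (volume C).toReal / M := by
  by_contra hcon
  push Not at hcon
  have hm0 := (S0_closed hC hs).measurableSet
  have hm1 := (S1_closed hC hs).measurableSet
  have hlt : ∀ c : P2, 3 * (∫⁻ t : ℝ, ENNReal.ofReal (t ^ 2) * sl (S1 C) (t • uu c)) <
      ∫⁻ t : ℝ, ENNReal.ofReal (t ^ 2) * sl (S0 C) (t • uu c) := by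
    intro c
    have hk := kap_pos hC hs c
    have hM0 : 0 < (kap C c)⁻¹ := inv_pos.2 hk
    have h1 := hcon c _ hM0 (len_zero hC hs c)
    rw [← sb_volume hC.isCompact.isClosed.measurableSet c] at h1
    have h2 := cov_pos (sb_body hC c) (len_zero hC hs c) hM0 h1
    rw [A1_le hC hs]
    refine lt_of_lt_of_le ?_ (A0_ge hC hs c)
    have h3 : 0 ≤ (kap C c)⁻¹ ^ 3 * gg (sb C c) (kap C c)⁻¹ := mul_nonneg (by positivity) (gg_nonneg _ _)
    exact (ENNReal.ofReal_lt_ofReal_iff_of_nonneg h3).2 h2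
  have h1 : ∫⁻ c : P2, 3 * (∫⁻ t : ℝ, ENNReal.ofReal (t ^ 2) * sl (S1 C) (t • uu c)) = 3 * (volume : Measure (E3 × E3)) (S1 C) := by
    rw [lintegral_const_mul' _ _ (by norm_num), ← vol_sl hm1]
  have h2 : ∫⁻ c : P2, 3 * (∫⁻ t : ℝ, ENNReal.ofReal (t ^ 2) * sl (S1 C) (t • uu c)) <
      ∫⁻ c : P2, ∫⁻ t : ℝ, ENNReal.ofReal (t ^ 2) * sl (S0 C) (t • uu c) := by
    refine lintegral_strict_mono ?_ (meas_sl hm0).aemeasurable ?_ (Filter.Eventually.of_forall hlt)
    · intro h
      have h4 : (volume : Measure P2) Set.univ = 0 := by rw [h]; rfl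
      simp at h4
    · rw [h1]
      exact ENNReal.mul_ne_top (by norm_num) (vol_S1_fin hC hs)
  rw [h1, ← vol_sl hm0] at h2
  exact absurd (vol_S0_le hC hs) (not_le.2 h2)

end Pool.Agent.Helper19.SY
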