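import Pool.Agent.Helper19.SY.Shear

/-!
# The covering argument in the space of pairs and the choice of a direction
-/

set_option autoImplicit false
namespace Pool.Agent.Helper19.SY
open MeasureTheory Metric Topology
open Pool.Agent.Helper59.Pack Pool.Agent.Helper69.MD
open scoped ENNReal

section gaugeFacts

variable {C : Set E3}

theorem zero_nhds (hC : IsConvexBody C) (hs : ∀ x ∈ C, -x ∈ C) : C ∈ 𝓝 (0 : E3) := by
  obtain ⟨x, hx⟩ := hC.interior_nonempty
  have hx' : -x ∈ interior C := by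
    rw [mem_interior]
    refine ⟨(fun y : E3 => -y) ⁻¹' interior C, fun y hy => ?_, isOpen_interior.preimage continuous_neg, ?_⟩
    · have := hs _ (interior_subset hy)
      rwa [neg_neg] at this
    · simpa using hx
  have h0 : (0 : E3) ∈ interior C := by
    have := hC.convex.interior hx hx' (by norm_num : (0 : ℝ) ≤ 1 / 2) (by norm_num : (0 : ℝ) ≤ 1 / 2) (by norm_num)
    rwa [smul_neg, add_neg_cancel] at this
  exact mem_interior_iff_mem_nhds.1 h0

theorem gauge_le_one (hC : IsConvexBody C) (hs : ∀ x ∈ C, -x ∈ C) {x : E3} : gauge C x ≤ 1 ↔ x ∈ C := by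
  rw [gauge_le_one_iff_mem_closure hC.convex (zero_nhds hC hs), hC.isCompact.isClosed.closure_eq]

theorem gauge_le_iff (hC : IsConvexBody C) (hs : ∀ x ∈ C, -x ∈ C) {x : E3} {s : ℝ} (h : 0 < s) :
    gauge C x ≤ s ↔ s⁻¹ • x ∈ C := by
  rw [← gauge_le_one hC hs, gauge_smul_of_nonneg (inv_nonneg.2 h.le), smul_eq_mul, inv_mul_le_iff₀ h, mul_one]

theorem gauge_real_smul (hs : ∀ x ∈ C, -x ∈ C) (t : ℝ) (x : E3) : gauge C (t • x) = |t| * gauge C x := by
  rcases le_total 0 t with h | h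
  · rw [gauge_smul_of_nonneg h, abs_of_nonneg h, smul_eq_mul]
  · have : t • x = -((-t) • x) := by rw [neg_smul, neg_neg]
    rw [this, gauge_neg hs, gauge_smul_of_nonneg (by linarith), abs_of_nonpos h, smul_eq_mul]

theorem uu_ne (c : P2) : uu c ≠ 0 := by
  intro h
  have : (uu c) 2 = (0 : E3) 2 := by rw [h]
  unfold uu at this
  simp at this

/-- the gauge of the direction -/
noncomputable def kap (C : Set E3) (c : P2) : ℝ := gauge C (uu c)

theorem kap_pos (hC : IsConvexBody C) (hs : ∀ x ∈ C, -x ∈ C) (c : P2) : 0 < kap C c :=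
  (gauge_pos (absorbent_nhds_zero (zero_nhds hC hs))
    (NormedSpace.isVonNBounded_of_isBounded ℝ hC.isCompact.isBounded)).2 (uu_ne c)

theorem smul_mem (hC : IsConvexBody C) (hs : ∀ x ∈ C, -x ∈ C) (c : P2) (t : ℝ) :
    t • uu c ∈ C ↔ |t| ≤ (kap C c)⁻¹ := by
  rw [← gauge_le_one hC hs, gauge_real_smul hs, ← one_div, le_div_iff₀ (kap_pos hC hs c)]
  rfl

theorem len_zero (hC : IsConvexBody C) (hs : ∀ x ∈ C, -x ∈ C) (c : P2) : len (sb C c) 0 = 2 * (kap C c)⁻¹ := by
  have hk := kap_pos hC hs c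
  have h1 : sec (sb C c) 0 = Set.Icc (-(kap C c)⁻¹) (kap C c)⁻¹ := by
    ext t
    change sh c (mk3 0 t) ∈ C ↔ _
    rw [sh_vert, smul_mem hC hs, Set.mem_Icc, abs_le]
  unfold len
  rw [h1, Real.volume_Icc, ENNReal.toReal_ofReal]
  · ring
  · have : 0 < (kap C c)⁻¹ := inv_pos.2 hk
    linarith

end gaugeFacts

/-! ## the pairs -/

/-- pairs with `x, y, y - x ∈ C` -/
def S0 (C : Set E3) : Set (E3 × E3) := {p | gauge C p.1 ≤ 1 ∧ gauge C p.2 ≤ 1 ∧ gauge C (p.2 - p.1) ≤ 1}

/-- pairs where `x` has the largest gauge -/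
def S1 (C : Set E3) : Set (E3 × E3) :=
  {p | gauge C p.1 ≤ 1 ∧ gauge C p.2 ≤ gauge C p.1 ∧ gauge C (p.2 - p.1) ≤ gauge C p.1}

section pairs

variable {C : Set E3}

theorem gauge_meas (hC : IsConvexBody C) (hs : ∀ x ∈ C, -x ∈ C) : Continuous (gauge C) :=
  continuous_gauge hC.convex (zero_nhds hC hs)

theorem S0_closed (hC : IsConvexBody C) (hs : ∀ x ∈ C, -x ∈ C) : IsClosed (S0 C) := by
  have hg := gauge_meas hC hs
  refine (isClosed_le (hg.comp continuous_fst) continuous_const).inter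
    ((isClosed_le (hg.comp continuous_snd) continuous_const).inter
    (isClosed_le (hg.comp (continuous_snd.sub continuous_fst)) continuous_const))

theorem S1_closed (hC : IsConvexBody C) (hs : ∀ x ∈ C, -x ∈ C) : IsClosed (S1 C) := by
  have hg := gauge_meas hC hs
  refine (isClosed_le (hg.comp continuous_fst) continuous_const).inter
    ((isClosed_le (hg.comp continuous_snd) (hg.comp continuous_fst)).inter
    (isClosed_le (hg.comp (continuous_snd.sub continuous_fst)) (hg.comp continuous_fst)))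

theorem cover (hs : ∀ x ∈ C, -x ∈ C) : S0 C ⊆ S1 C ∪ (Prod.swap ⁻¹' S1 C ∪ (fun p : E3 × E3 => (p.2 - p.1, -p.1)) ⁻¹' S1 C) := by
  rintro ⟨x, y⟩ ⟨h1, h2, h3⟩
  simp only at h1 h2 h3
  have e1 : gauge C (x - y) = gauge C (y - x) := by rw [← gauge_neg hs (y - x), neg_sub]
  have e2 : gauge C (-x - (y - x)) = gauge C y := by
    rw [← gauge_neg hs y]; congr 1; abel
  by_cases hx : gauge C y ≤ gauge C x ∧ gauge C (y - x) ≤ gauge C x
  · exact Or.inl ⟨h1, hx.1, hx.2⟩
  · by_cases hy : gauge C x ≤ gauge C y ∧ gauge C (y - x) ≤ gauge C y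
    · refine Or.inr (Or.inl ⟨h2, hy.1, ?_⟩)
      change gauge C (x - y) ≤ gauge C y
      rw [e1]; exact hy.2
    · refine Or.inr (Or.inr ⟨h3, ?_, ?_⟩)
      · change gauge C (-x) ≤ gauge C (y - x)
        rw [gauge_neg hs]
        by_contra hc
        push Not at hc
        by_cases h4 : gauge C y ≤ gauge C x
        · exact hx ⟨h4, hc.le⟩
        · push Not at h4
          exact hy ⟨h4.le, (hc.trans h4).le⟩
      · change gauge C (-x - (y - x)) ≤ gauge C (y - x)
        rw [e2]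
        by_contra hc
        push Not at hc
        by_cases h4 : gauge C x ≤ gauge C y
        · exact hy ⟨h4, hc.le⟩
        · push Not at h4
          exact hx ⟨h4.le, (hc.trans h4).le⟩

theorem vol_S0_le (hC : IsConvexBody C) (hs : ∀ x ∈ C, -x ∈ C) :
    (volume : Measure (E3 × E3)) (S0 C) ≤ 3 * (volume : Measure (E3 × E3)) (S1 C) := by
  have hm := (S1_closed hC hs).measurableSet
  have m1 : MeasurePreserving (Prod.swap : E3 × E3 → E3 × E3) (volume.prod volume) (volume.prod volume) :=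
    Measure.measurePreserving_swap
  have m2 : MeasurePreserving (fun p : E3 × E3 => (p.2 - p.1, -p.1)) (volume.prod volume) (volume.prod volume) := by
    have a1 := (measurePreserving_sub_prod (volume : Measure E3) (volume : Measure E3)).comp
      (Measure.measurePreserving_swap (μ := (volume : Measure E3)) (ν := (volume : Measure E3)))
    have a2 := ((MeasurePreserving.id (volume : Measure E3)).prod (Measure.measurePreserving_neg (volume : Measure E3))).comp a1
    exact a2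
  calc (volume : Measure (E3 × E3)) (S0 C) ≤ _ := measure_mono (cover hs)
    _ ≤ volume (S1 C) + (volume (Prod.swap ⁻¹' S1 C) + volume ((fun p : E3 × E3 => (p.2 - p.1, -p.1)) ⁻¹' S1 C)) :=
        (measure_union_le _ _).trans (add_le_add le_rfl (measure_union_le _ _))
    _ = volume (S1 C) + (volume (S1 C) + volume (S1 C)) := by
        rw [Measure.volume_eq_prod, m1.measure_preimage hm.nullMeasurableSet, m2.measure_preimage hm.nullMeasurableSet]
    _ = 3 * volume (S1 C) := by ring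

theorem vol_S1_fin (hC : IsConvexBody C) (hs : ∀ x ∈ C, -x ∈ C) : (volume : Measure (E3 × E3)) (S1 C) ≠ ⊤ := by
  have h1 : S1 C ⊆ C ×ˢ C := by
    rintro ⟨x, y⟩ ⟨h1, h2, _⟩
    exact ⟨(gauge_le_one hC hs).1 h1, (gauge_le_one hC hs).1 (h2.trans h1)⟩
  exact ne_top_of_le_ne_top (hC.isCompact.prod hC.isCompact).measure_lt_top.ne (measure_mono h1)

/-! ## slices -/

/-- the slice function of a set of pairs -/
noncomputable def sl (S : Set (E3 × E3)) (x : E3) : ℝ≥0∞ := volume (Prod.mk x ⁻¹' S)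

theorem vol_sl {S : Set (E3 × E3)} (hS : MeasurableSet S) :
    (volume : Measure (E3 × E3)) S = ∫⁻ c : P2, ∫⁻ t : ℝ, ENNReal.ofReal (t ^ 2) * sl S (t • uu c) := by
  rw [Measure.volume_eq_prod, Measure.prod_apply hS]
  exact polar (measurable_measure_prodMk_left hS)

theorem meas_sl {S : Set (E3 × E3)} (hS : MeasurableSet S) :
    Measurable fun c : P2 => ∫⁻ t : ℝ, ENNReal.ofReal (t ^ 2) * sl S (t • uu c) := by
  have h3 : Measurable fun p : P2 × ℝ => p.2 • uu p.1 := by
    have : (fun p : P2 × ℝ => p.2 • uu p.1) = fun p : P2 × ℝ => mk3 (p.2 • p.1) p.2 := by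
      funext p
      exact smul_uu _ _
    rw [this]
    exact mp_mk3.measurable.comp (measurable_snd.prodMk (measurable_snd.smul measurable_fst))
  have h4 : Measurable fun p : P2 × ℝ => ENNReal.ofReal (p.2 ^ 2) * sl S (p.2 • uu p.1) :=
    (ENNReal.measurable_ofReal.comp (measurable_snd.pow_const 2)).mul ((measurable_measure_prodMk_left hS).comp h3)
  exact h4.lintegral_prod_right'

theorem sl_S0 (hC : IsConvexBody C) (hs : ∀ x ∈ C, -x ∈ C) (c : P2) (t : ℝ) :
    sl (S0 C) (t • uu c) = if |t| ≤ (kap C c)⁻¹ then ∫⁻ y : P2, ENNReal.ofReal (max (len (sb C c) y - |t|) 0) else 0 := by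
  have h1 : Prod.mk (t • uu c) ⁻¹' S0 C = {y | t • uu c ∈ C ∧ y ∈ C ∧ y - t • uu c ∈ C} := by
    ext y
    change (gauge C (t • uu c) ≤ 1 ∧ gauge C y ≤ 1 ∧ gauge C (y - t • uu c) ≤ 1) ↔ _
    rw [gauge_le_one hC hs, gauge_le_one hC hs, gauge_le_one hC hs]
    rfl
  unfold sl
  rw [h1, smul_mem hC hs]
  split_ifs with h
  · rw [← cg_uu hC]
    unfold cg
    congr 1
    ext y
    simp [h]
  · simp [h]

theorem sl_S1 (hC : IsConvexBody C) (hs : ∀ x ∈ C, -x ∈ C) (c : P2) {t : ℝ} (ht : t ≠ 0) :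
    sl (S1 C) (t • uu c) = if |t| ≤ (kap C c)⁻¹ then ENNReal.ofReal ((|t| * kap C c) ^ 3) *
      ∫⁻ y : P2, ENNReal.ofReal (max (len (sb C c) y - (kap C c)⁻¹) 0) else 0 := by
  have hk := kap_pos hC hs c
  set s : ℝ := |t| * kap C c with hsdef
  have hs0 : 0 < s := mul_pos (abs_pos.2 ht) hk
  have hgs : gauge C (t • uu c) = s := gauge_real_smul hs t (uu c)
  have h1 : Prod.mk (t • uu c) ⁻¹' S1 C = {y | t • uu c ∈ C ∧ s⁻¹ • y ∈ C ∧ s⁻¹ • (y - t • uu c) ∈ C} := by
    ext y
    change (gauge C (t • uu c) ≤ 1 ∧ gauge C y ≤ gauge C (t • uu c) ∧ gauge C (y - t • uu c) ≤ gauge C (t • uu c)) ↔ _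
    rw [gauge_le_one hC hs, hgs, gauge_le_iff hC hs hs0, gauge_le_iff hC hs hs0]
    rfl
  unfold sl
  rw [h1, smul_mem hC hs]
  split_ifs with h
  · have h2 : {y | |t| ≤ (kap C c)⁻¹ ∧ s⁻¹ • y ∈ C ∧ s⁻¹ • (y - t • uu c) ∈ C} =
        (fun y : E3 => s⁻¹ • y) ⁻¹' {z | z ∈ C ∧ z - (t * s⁻¹) • uu c ∈ C} := by
      ext y
      simp only [h, true_and, Set.mem_ofPred_eq, Set.mem_preimage, smul_sub, smul_smul]
      rw [mul_comm s⁻¹ t]
    rw [h2, Measure.addHaar_preimage_smul _ (inv_ne_zero hs0.ne')]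
    have h3 : volume {z | z ∈ C ∧ z - (t * s⁻¹) • uu c ∈ C} = ∫⁻ y : P2, ENNReal.ofReal (max (len (sb C c) y - (kap C c)⁻¹) 0) := by
      have h4 : |t * s⁻¹| = (kap C c)⁻¹ := by
        rw [abs_mul, abs_of_pos (inv_pos.2 hs0), hsdef, mul_inv]
        rw [← mul_assoc, mul_inv_cancel₀ (abs_pos.2 ht).ne', one_mul]
      have h5 := cg_uu hC c (t * s⁻¹)
      rw [h4] at h5
      exact h5
    rw [h3]
    congr 2
    have : Module.finrank ℝ E3 = 3 := by simp [E3]
    rw [this, inv_pow, inv_inv, abs_of_pos (by positivity)]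
  · simp [h]

end pairs

end Pool.Agent.Helper19.SY
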