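import Pool.Agent.Helper19.SY.Choice
import Pool.Agent.Helper37.SY.Defs

/-!
# The choice of a direction in the notation of Helper37/SY/Defs
-/

set_option autoImplicit false
namespace Pool.Agent.Helper19.SY
open MeasureTheory Metric
open Pool.Agent.Helper59.Pack Pool.Agent.Helper69.MD
open scoped ENNReal

theorem sb_eq_sh (C : Set E3) (v : P2) : sb C v = Pool.Agent.Helper37.SY.sh v C := rfl

theorem exists_dir37 {C : Set E3} (hC : IsConvexBody C) (hs : Pool.Agent.Helper37.SY.Sym C) :
    ∃ v : P2, Pool.Agent.Helper37.SY.hh (Pool.Agent.Helper37.SY.sh v C) * ((volume (proj (Pool.Agent.Helper37.SY.sh v C))).toReal +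
      2 * (volume (Pool.Agent.Helper37.SY.up (Pool.Agent.Helper37.SY.sh v C))).toReal) ≤ 2 * (volume C).toReal := by
  obtain ⟨c, M, hM, hlen, h⟩ := exists_dir hC hs
  refine ⟨c, ?_⟩
  have h1 : Pool.Agent.Helper37.SY.hh (Pool.Agent.Helper37.SY.sh c C) = M := by
    unfold Pool.Agent.Helper37.SY.hh
    rw [← sb_eq_sh, hlen]
    ring
  have h2 : Pool.Agent.Helper37.SY.up (Pool.Agent.Helper37.SY.sh c C) = {y | M < len (sb C c) y} := by
    unfold Pool.Agent.Helper37.SY.up
    rw [h1]
    rfl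
  rw [h1, h2, ← sb_eq_sh, mul_comm, ← le_div_iff₀ hM]
  exact h

end Pool.Agent.Helper19.SY
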