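import Pool.Agent.Helper33.SY.Dir

/-!
# Shears, polar coordinates and the covariogram
-/

set_option autoImplicit false
namespace Pool.Agent.Helper19.SY
open MeasureTheory Metric
open Pool.Agent.Helper59.Pack Pool.Agent.Helper69.MD
open scoped ENNReal

/-! ## the shear which takes the vertical direction to `(c, 1)` -/

/-- the shear `(y, t) ↦ (y + t c, t)` -/
noncomputable def sh (c : P2) : E3 →ₗ[ℝ] E3 where
  toFun x := mk3 (pr x + x 2 • c) (x 2)
  map_add' x y := by apply E3_ext <;> simp <;> ring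
  map_smul' r x := by apply E3_ext <;> simp <;> ring

theorem sh_mk3 (c y : P2) (t : ℝ) : sh c (mk3 y t) = mk3 (y + t • c) t := by
  change mk3 (pr (mk3 y t) + (mk3 y t) 2 • c) ((mk3 y t) 2) = _
  simp

theorem sh_sh (c : P2) (x : E3) : sh c (sh (-c) x) = x := by
  rw [← mk3_pr x, sh_mk3, sh_mk3]
  apply E3_ext <;> simp

theorem sh_sh' (c : P2) (x : E3) : sh (-c) (sh c x) = x := by
  rw [← mk3_pr x, sh_mk3, sh_mk3]
  apply E3_ext <;> simp

theorem sh_cont (c : P2) : Continuous (sh c) := LinearMap.continuous_of_finiteDimensional _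

theorem sh_inj (c : P2) : Function.Injective (sh c) := fun x y h => by
  rw [← sh_sh' c x, h, sh_sh']

/-- the body seen in the direction `(c, 1)` -/
def sb (C : Set E3) (c : P2) : Set E3 := sh c ⁻¹' C

theorem sb_eq (C : Set E3) (c : P2) : sb C c = sh (-c) '' C := by
  ext x
  constructor
  · intro hx
    exact ⟨sh c x, hx, sh_sh' c x⟩
  · rintro ⟨y, hy, rfl⟩
    change sh c (sh (-c) y) ∈ C
    rwa [sh_sh]

theorem sb_body {C : Set E3} (hC : IsConvexBody C) (c : P2) : IsConvexBody (sb C c) where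
  convex := hC.convex.linear_preimage (sh c)
  isCompact := by rw [sb_eq]; exact hC.isCompact.image (sh_cont _)
  interior_nonempty := by
    obtain ⟨x, hx⟩ := hC.interior_nonempty
    refine ⟨sh (-c) x, ?_⟩
    rw [mem_interior]
    refine ⟨sh c ⁻¹' interior C, fun y hy => interior_subset (s := C) hy, isOpen_interior.preimage (sh_cont c), ?_⟩
    rw [Set.mem_preimage, sh_sh]
    exact hx

theorem sb_symm {C : Set E3} (hs : ∀ x ∈ C, -x ∈ C) (c : P2) : ∀ x ∈ sb C c, -x ∈ sb C c := by
  intro x hx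
  change sh c (-x) ∈ C
  rw [map_neg]
  exact hs _ hx

theorem sh_mp (c : P2) : MeasurePreserving (sh c) := by
  -- on the product
  have h1 : MeasurePreserving (fun p : ℝ × P2 => (p.1, p.2 + p.1 • c)) (volume.prod volume) (volume.prod volume) := by
    refine MeasurePreserving.skew_product (MeasurePreserving.id volume) (g := fun t y => y + t • c) ?_ ?_
    · change Measurable fun p : ℝ × P2 => p.2 + p.1 • c
      exact measurable_snd.add (measurable_fst.smul_const c)
    · exact Filter.Eventually.of_forall fun t => map_add_right_eq_self volume (t • c)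
  have h2 := mp_mk3.comp h1
  refine ⟨(sh_cont c).measurable, ?_⟩
  have h3 : Measure.map (sh c) (Measure.map (fun p : ℝ × P2 => mk3 p.2 p.1) volume) = volume := by
    rw [Measure.map_map (sh_cont c).measurable mp_mk3.measurable]
    have h4 : (sh c) ∘ (fun p : ℝ × P2 => mk3 p.2 p.1) = (fun p : ℝ × P2 => mk3 p.2 p.1) ∘ (fun p : ℝ × P2 => (p.1, p.2 + p.1 • c)) := by
      funext p
      exact sh_mk3 c p.2 p.1
    rw [h4]
    exact h2.map_eq
  rwa [mp_mk3.map_eq] at h3

theorem sb_volume {C : Set E3} (hC : MeasurableSet C) (c : P2) : volume (sb C c) = volume C :=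
  (sh_mp c).measure_preimage hC.nullMeasurableSet

/-! ## the covariogram -/

/-- `vol (C ∩ (C + x))` -/
noncomputable def cg (C : Set E3) (x : E3) : ℝ≥0∞ := volume {y | y ∈ C ∧ y - x ∈ C}

theorem vol_sec {X : Set E3} (hX : MeasurableSet X) : volume X = ∫⁻ y : P2, volume (sec X y) := by
  have h1 := mp_mk3.measure_preimage hX.nullMeasurableSet
  rw [← h1, Measure.volume_eq_prod, Measure.prod_apply_symm (mp_mk3.measurable hX)]
  rfl

theorem cg_vert {D : Set E3} (hD : IsConvexBody D) (t : ℝ) :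
    cg D (mk3 0 t) = ∫⁻ y : P2, ENNReal.ofReal (max (len D y - |t|) 0) := by
  have hm : MeasurableSet D := hD.isCompact.isClosed.measurableSet
  have hm2 : MeasurableSet {y : E3 | y ∈ D ∧ y - mk3 0 t ∈ D} :=
    hm.inter ((measurable_id.sub_const (mk3 0 t)) hm)
  unfold cg
  rw [vol_sec hm2]
  refine lintegral_congr fun y => ?_
  have hset : sec {y : E3 | y ∈ D ∧ y - mk3 0 t ∈ D} y = {τ | τ ∈ sec D y ∧ τ - t ∈ sec D y} := by
    ext τ
    have h1 : mk3 y τ - mk3 0 t = mk3 y (τ - t) := by apply E3_ext <;> simp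
    change (mk3 y τ ∈ D ∧ mk3 y τ - mk3 0 t ∈ D) ↔ _
    rw [h1]
    rfl
  rw [hset]
  by_cases hy : y ∈ proj D
  · obtain ⟨a, b, hab, ha, hb, hl⟩ := len_mem hD hy
    have hs : sec D y = Set.Icc a b := by
      apply Set.Subset.antisymm
      · intro τ hτ
        constructor
        · have := len_ge hD (y := y) (a := τ) (b := b) hτ hb
          linarith
        · have := len_ge hD (y := y) (a := a) (b := τ) ha hτ
          linarith
      · exact (sec_convex hD y).ordConnected.out ha hb
    rw [hs]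
    have h2 : {τ | τ ∈ Set.Icc a b ∧ τ - t ∈ Set.Icc a b} = Set.Icc (max a (a + t)) (min b (b + t)) := by
      ext τ
      simp only [Set.mem_Icc, Set.mem_ofPred_eq, max_le_iff, le_min_iff]
      constructor
      · rintro ⟨⟨h1, h2⟩, h3, h4⟩
        refine ⟨⟨h1, by linarith⟩, h2, by linarith⟩
      · rintro ⟨⟨h1, h2⟩, h3, h4⟩
        exact ⟨⟨h1, h3⟩, by linarith, by linarith⟩
    rw [h2, Real.volume_Icc, hl]
    rcases le_total 0 t with ht | ht
    · rw [max_eq_right (by linarith), min_eq_left (by linarith), abs_of_nonneg ht]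
      rcases le_total 0 (b - a - t) with h | h
      · rw [max_eq_left h]; congr 1; ring
      · rw [max_eq_right h, ENNReal.ofReal_of_nonpos (by linarith)]; simp
    · rw [max_eq_left (by linarith), min_eq_right (by linarith), abs_of_nonpos ht]
      rcases le_total 0 (b - a - -t) with h | h
      · rw [max_eq_left h]; congr 1; ring
      · rw [max_eq_right h, ENNReal.ofReal_of_nonpos (by linarith)]; simp
  · rw [len_off hy]
    have h1 : {τ | τ ∈ sec D y ∧ τ - t ∈ sec D y} = ∅ := by
      rw [Set.eq_empty_iff_forall_notMem]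
      rintro τ ⟨h, _⟩
      exact hy ⟨mk3 y τ, h, pr_mk3 _ _⟩
    rw [h1, max_eq_right (by linarith [abs_nonneg t])]
    simp

/-- the direction vector -/
noncomputable def uu (c : P2) : E3 := mk3 c 1

theorem smul_uu (c : P2) (t : ℝ) : t • uu c = mk3 (t • c) t := by
  unfold uu
  apply E3_ext <;> simp

theorem sh_vert (c : P2) (t : ℝ) : sh c (mk3 0 t) = t • uu c := by
  rw [sh_mk3, smul_uu, zero_add]

theorem cg_uu {C : Set E3} (hC : IsConvexBody C) (c : P2) (t : ℝ) :
    cg C (t • uu c) = ∫⁻ y : P2, ENNReal.ofReal (max (len (sb C c) y - |t|) 0) := by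
  rw [← cg_vert (sb_body hC c) t]
  have hm : MeasurableSet C := hC.isCompact.isClosed.measurableSet
  have hm2 : MeasurableSet {y : E3 | y ∈ C ∧ y - t • uu c ∈ C} :=
    hm.inter ((measurable_id.sub_const _) hm)
  unfold cg
  rw [← (sh_mp c).measure_preimage hm2.nullMeasurableSet]
  congr 1
  ext y
  change (sh c y ∈ C ∧ sh c y - t • uu c ∈ C) ↔ (sh c y ∈ C ∧ sh c (y - mk3 0 t) ∈ C)
  rw [map_sub, sh_vert]

/-! ## polar coordinates with respect to the plane at height one -/

theorem polar {F : E3 → ℝ≥0∞} (hF : Measurable F) :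
    ∫⁻ x, F x = ∫⁻ c : P2, ∫⁻ t : ℝ, ENNReal.ofReal (t ^ 2) * F (t • uu c) := by
  have h0 : Measurable fun p : ℝ × P2 => F (mk3 p.2 p.1) := hF.comp mp_mk3.measurable
  rw [← mp_mk3.lintegral_comp hF, Measure.volume_eq_prod, lintegral_prod _ h0.aemeasurable]
  have h1 : ∀ t : ℝ, t ≠ 0 → ∫⁻ y : P2, F (mk3 y t) = ∫⁻ c : P2, ENNReal.ofReal (t ^ 2) * F (t • uu c) := by
    intro t ht
    have hy : Measurable fun y : P2 => F (mk3 y t) := h0.comp (measurable_const.prodMk measurable_id)
    have h2 := Measure.map_addHaar_smul (volume : Measure P2) ht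
    have h3 : ∫⁻ c : P2, F (t • uu c) = ENNReal.ofReal |(t ^ Module.finrank ℝ P2)⁻¹| * ∫⁻ y : P2, F (mk3 y t) := by
      have h4 : ∫⁻ c : P2, F (t • uu c) = ∫⁻ y, F (mk3 y t) ∂(Measure.map (fun c : P2 => t • c) volume) := by
        rw [lintegral_map hy (measurable_const_smul t)]
        simp only [smul_uu]
      rw [h4, h2, lintegral_smul_measure, smul_eq_mul]
    rw [lintegral_const_mul' _ _ ENNReal.ofReal_ne_top, h3, ← mul_assoc, ← ENNReal.ofReal_mul (by positivity)]
    have h5 : t ^ 2 * |(t ^ Module.finrank ℝ P2)⁻¹| = 1 := by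
      simp only [Module.finrank_fintype_fun_eq_card, Fintype.card_fin]
      rw [abs_of_nonneg (by positivity)]
      field_simp
    rw [h5, ENNReal.ofReal_one, one_mul]
  have h2 : ∫⁻ t : ℝ, ∫⁻ y : P2, F (mk3 y t) = ∫⁻ t : ℝ, ∫⁻ c : P2, ENNReal.ofReal (t ^ 2) * F (t • uu c) := by
    refine lintegral_congr_ae ?_
    have : ∀ᵐ t : ℝ, t ≠ 0 := by
      have := (measure_singleton (μ := (volume : Measure ℝ)) 0)
      rw [ae_iff]
      simpa using this
    filter_upwards [this] with t ht using h1 t ht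
  rw [h2]
  refine lintegral_lintegral_swap ?_
  have h3 : Measurable fun p : ℝ × P2 => p.1 • uu p.2 := by
    have : (fun p : ℝ × P2 => p.1 • uu p.2) = fun p : ℝ × P2 => mk3 (p.1 • p.2) p.1 := by
      funext p
      exact smul_uu _ _
    rw [this]
    exact mp_mk3.measurable.comp (measurable_fst.prodMk (measurable_fst.smul measurable_snd))
  exact ((ENNReal.measurable_ofReal.comp (measurable_fst.pow_const 2)).mul (hF.comp h3)).aemeasurable

end Pool.Agent.Helper19.SY
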